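import Pool.Agent.H29.L.R_seed8.H931R3.LAMain

set_option autoImplicit false

/-!
Linear forests pull back along locally injective homomorphisms.
-/

namespace Pool.Agent.TH525.FRG

open Finset H931R3.LA SimpleGraph

/-- In a forest a vertex has at most one neighbour that is not farther from the root. -/
theorem tree_parent {W : Type} (F : SimpleGraph W) (hF : F.IsAcyclic) (r u v w : W)
    (hr : F.Reachable r u) (hv : F.Adj u v) (hw : F.Adj u w) (hdv : F.dist r v ≤ F.dist r u)
    (hdw : F.dist r w ≤ F.dist r u) : v = w := by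
  classical
  have key : ∀ x : W, F.Adj u x → F.dist r x ≤ F.dist r u →
      ∃ p : F.Walk r u, p.IsPath ∧ p.penultimate = x := by
    intro x hx hd
    have hrx : F.Reachable r x := hr.trans hx.reachable
    obtain ⟨p, hp, hlen⟩ := hrx.exists_path_of_dist
    have hu : u ∉ p.support := by
      intro hu
      have h1 : F.dist r u ≤ (p.takeUntil u hu).length := dist_le _
      have h2 : (p.takeUntil u hu).length + (p.dropUntil u hu).length = p.length := by
        rw [← Walk.length_append, p.take_spec hu]
      have h3 : (p.dropUntil u hu).length ≠ 0 := by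
        intro h0
        have := Walk.eq_of_length_eq_zero h0
        exact hx.ne this
      omega
    refine ⟨p.concat hx.symm, ?_, ?_⟩
    · exact hp.concat hu hx.symm
    · simp
  obtain ⟨p, hp, hpv⟩ := key v hv hdv
  obtain ⟨q, hq, hqw⟩ := key w hw hdw
  have h := hF.path_unique ⟨p, hp⟩ ⟨q, hq⟩
  have h' : p = q := congrArg Subtype.val h
  rw [← hpv, ← hqw, h']

/-- The pull-back of a graph `F` on `W` along a map `h` inside a graph `G` on `V`. -/
def pull {V W : Type} (G : SimpleGraph V) (F : SimpleGraph W) (h : V → W) : SimpleGraph V where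
  Adj u v := G.Adj u v ∧ F.Adj (h u) (h v)
  symm := ⟨fun _ _ a => ⟨a.1.symm, a.2.symm⟩⟩
  loopless := ⟨fun _ a => G.loopless.irrefl _ a.1⟩

theorem pull_isLF {V W : Type} [Finite W] (G : SimpleGraph V) (F : SimpleGraph W) (h : V → W)
    (hinj : ∀ u v w, G.Adj u v → G.Adj u w → h v = h w → v = w) (hF : IsLF F) :
    IsLF (pull G F h) := by
  classical
  constructor
  · intro v c hc
    obtain ⟨u, hu, hmax⟩ := Finset.exists_max_image c.support.toFinset
      (fun x => F.dist (h v) (h x)) ⟨v, by simp⟩
    rw [List.mem_toFinset] at hu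
    have hcyc : (c.rotate u hu).IsCycle := hc.rotate hu
    set d := c.rotate u hu with hd
    have hnil : ¬ d.Nil := hcyc.not_nil
    have h1 : (pull G F h).Adj u d.snd := d.adj_snd hnil
    have h2 : (pull G F h).Adj d.penultimate u := d.adj_penultimate hnil
    have hne' : d.snd ≠ d.penultimate := hcyc.snd_ne_penultimate
    have hm : ∀ x ∈ d.support, F.dist (h v) (h x) ≤ F.dist (h v) (h u) := by
      intro x hx
      rw [hd, SimpleGraph.Walk.mem_support_rotate_iff] at hx
      exact hmax x (by rw [List.mem_toFinset]; exact hx)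
    have hreach : F.Reachable (h v) (h u) := by
      have h3 : (pull G F h).Reachable v u := ⟨c.takeUntil u hu⟩
      exact h3.map (⟨h, fun {a b} hab => hab.2⟩ : pull G F h →g F)
    apply hne'
    refine hinj u _ _ h1.1 h2.1.symm ?_
    exact tree_parent F hF.1 (h v) (h u) _ _ hreach h1.2 h2.2.symm
      (hm _ (d.getVert_mem_support 1)) (hm _ (d.getVert_mem_support _))
  · intro v
    have h1 : Set.InjOn h ((pull G F h).neighborSet v) := by
      intro a ha b hb hab
      exact hinj v a b ha.1 hb.1 hab
    rw [← h1.ncard_image]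
    refine le_trans (Set.ncard_le_ncard ?_ (Set.toFinite _)) (hF.2 (h v))
    rintro _ ⟨a, ha, rfl⟩
    exact ha.2

/-- Linear arboricity is monotone under locally injective homomorphisms. -/
theorem cov_hom {V W : Type} [Finite W] (G : SimpleGraph V) (H : SimpleGraph W) (h : V → W)
    (hhom : ∀ u v, G.Adj u v → H.Adj (h u) (h v))
    (hinj : ∀ u v w, G.Adj u v → G.Adj u w → h v = h w → v = w) (k : ℕ) (hH : Cov H k) :
    Cov G k := by
  obtain ⟨F, hF, hsup⟩ := hH
  refine ⟨fun i => pull G (F i) h, fun i => pull_isLF G (F i) h hinj (hF i), ?_⟩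
  ext u v
  rw [SimpleGraph.iSup_adj]
  constructor
  · rintro ⟨i, hi⟩; exact hi.1
  · intro huv
    have h1 := hhom u v huv
    rw [← hsup, SimpleGraph.iSup_adj] at h1
    obtain ⟨i, hi⟩ := h1
    exact ⟨i, huv, hi⟩

theorem la_hom {V W : Type} [Finite W] (G : SimpleGraph V) (H : SimpleGraph W) (h : V → W)
    (hhom : ∀ u v, G.Adj u v → H.Adj (h u) (h v))
    (hinj : ∀ u v w, G.Adj u v → G.Adj u w → h v = h w → v = w) : la G ≤ la H :=
  la_le (cov_hom G H h hhom hinj _ (cov_la H))

end Pool.Agent.TH525.FRG
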